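import Pool.Agent.helper27.PC2.Stmt2

/-!
# PC project: commutators of `Low` and `Rib`
-/

namespace Pool.Agent.helper27.PC

open Module Finset

section lb

variable {R : Type} [CommRing R]

theorem LB_sg {S : St} {l : Lab} {a : ℕ} (h : l ∉ S) (ha : 1 ≤ a) :
    (sg S (up a l) : R) * sg (S.erase (up a l)) l = (-1) ^ cnt S l a := by
  unfold sg cnt
  rw [← pow_add]
  have h1 : S.filter (fun y => toLex y < toLex (up a l)) =
      (S.filter fun y => toLex y < toLex l) ∪
        S.filter fun y => y.1 = l.1 ∧ l.2 < y.2 ∧ y.2 < l.2 + a := by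
    ext y
    simp only [mem_filter, mem_union, lex_iff, up]
    constructor
    · rintro ⟨h2, h3⟩
      rcases h3 with h3 | ⟨h3, h4⟩
      · exact Or.inl ⟨h2, Or.inl h3⟩
      · rcases lt_trichotomy y.2 l.2 with h5 | h5 | h5
        · exact Or.inl ⟨h2, Or.inr ⟨h3, h5⟩⟩
        · exact absurd h2 (by rw [show y = l from Prod.ext h3 h5]; exact h)
        · exact Or.inr ⟨h2, h3, h5, h4⟩
    · rintro (⟨h1, h2⟩ | ⟨h1, h2, h3, h4⟩)
      · rcases h2 with h2 | ⟨h2, h3⟩
        · exact ⟨h1, Or.inl h2⟩
        · exact ⟨h1, Or.inr ⟨h2, by omega⟩⟩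
      · exact ⟨h1, Or.inr ⟨h2, h4⟩⟩
  have h2 : Disjoint (S.filter fun y => toLex y < toLex l)
      (S.filter fun y => y.1 = l.1 ∧ l.2 < y.2 ∧ y.2 < l.2 + a) := by
    rw [Finset.disjoint_left]
    intro y hy hy'
    simp only [mem_filter, lex_iff] at hy hy'
    rcases hy.2 with h3 | ⟨h3, h4⟩
    · rw [hy'.2.1] at h3; exact lt_irrefl _ h3
    · omega
  have h3 : (S.erase (up a l)).filter (fun y => toLex y < toLex l) =
      S.filter fun y => toLex y < toLex l := by
    ext y
    simp only [mem_filter, mem_erase, lex_iff, up]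
    constructor
    · rintro ⟨⟨_, h4⟩, h5⟩
      exact ⟨h4, h5⟩
    · rintro ⟨h4, h5⟩
      refine ⟨⟨?_, h4⟩, h5⟩
      rintro rfl
      rcases h5 with h5 | ⟨_, h5⟩
      · exact lt_irrefl _ h5
      · simp only at h5
        omega
  rw [h1, h3, card_union_of_disjoint h2, add_right_comm, ← two_mul, pow_add, pow_mul]
  simp

theorem LB_EE {S : St} {l : Lab} {a : ℕ} (ha : 1 ≤ a) :
    EE R (up a l) l (Finsupp.single S (1 : R)) =
      if up a l ∈ S ∧ l ∉ S then
        Finsupp.single (insert l (S.erase (up a l))) ((-1) ^ cnt S l a) else 0 := by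
  have hne : l ≠ up a l := fun e => by
    have := congrArg Prod.snd e
    simp only [up] at this
    omega
  unfold EE
  rw [Module.End.mul_apply, ann_single]
  by_cases h : up a l ∈ S
  · rw [if_pos h, cre_single, one_mul]
    by_cases h2 : l ∈ S
    · rw [if_pos (mem_erase.2 ⟨hne, h2⟩), if_neg (by simp [h2])]
    · rw [if_neg (by simp [h2]), if_pos ⟨h, h2⟩, LB_sg h2 ha]
  · rw [if_neg h, map_zero, if_neg (by simp [h])]

theorem LB_Low_single (w : Lab → R) (a : ℕ) (S : St) :
    Low w a (Finsupp.single S 1) =
      ∑ y ∈ S.filter (fun y => a ≤ y.2 ∧ dn a y ∉ S),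
        Finsupp.single (insert (dn a y) (S.erase y)) ((-1) ^ cnt S (dn a y) a * w (dn a y)) := by
  unfold Low
  rw [Finsupp.linearCombination_single, one_smul]

theorem LB_updn {a : ℕ} {y : Lab} (h : a ≤ y.2) : up a (dn a y) = y := by
  unfold up dn
  exact Prod.ext rfl (by simp only; omega)

theorem LB_dnup {a : ℕ} {y : Lab} : dn a (up a y) = y := by
  unfold up dn
  exact Prod.ext rfl (by simp only; omega)

theorem LB_Low_sum (w : Lab → R) {a : ℕ} (ha : 1 ≤ a) {S : St} {N : ℕ} (hN : S ⊆ box N) :
    Low w a (Finsupp.single S 1) =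
      ∑ l ∈ box N, w l • EE R (up a l) l (Finsupp.single S (1 : R)) := by
  rw [LB_Low_single]
  have h1 : ∀ l ∈ box N, w l • EE R (up a l) l (Finsupp.single S (1 : R)) =
      if up a l ∈ S ∧ l ∉ S then
        Finsupp.single (insert l (S.erase (up a l))) ((-1) ^ cnt S l a * w l) else 0 := by
    intro l _
    rw [LB_EE ha]
    split_ifs
    · rw [Finsupp.smul_single, smul_eq_mul, mul_comm]
    · simp
  rw [sum_congr rfl h1, ← sum_filter]
  symm
  refine sum_nbij' (fun l => up a l) (fun y => dn a y) ?_ ?_ ?_ ?_ ?_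
  · intro l hl
    rw [mem_filter] at hl ⊢
    refine ⟨hl.2.1, ?_, ?_⟩
    · simp only [up]; omega
    · rw [LB_dnup]; exact hl.2.2
  · intro y hy
    rw [mem_filter] at hy ⊢
    refine ⟨?_, ?_, hy.2.2⟩
    · have := mem_box.1 (hN hy.1)
      rw [mem_box]
      simp only [dn]; omega
    · rw [LB_updn hy.2.1]; exact hy.1
  · intro l _
    exact LB_dnup
  · intro y hy
    exact LB_updn (mem_filter.1 hy).2.1
  · intro l _
    simp only [LB_dnup]

theorem LB_ext (f h : (St →₀ R) →ₗ[R] (St →₀ R)) (u : St →₀ R)
    (H : ∀ S ∈ u.support, f (Finsupp.single S 1) = h (Finsupp.single S 1)) : f u = h u := by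
  have h1 : u = ∑ M ∈ u.support, u M • Finsupp.single M (1 : R) := by
    conv_lhs => rw [← Finsupp.sum_single u]
    unfold Finsupp.sum
    apply sum_congr rfl
    intro M _
    rw [Finsupp.smul_single, smul_eq_mul, mul_one]
  rw [h1, map_sum, map_sum]
  refine sum_congr rfl fun S hS => ?_
  rw [map_smul, map_smul, H S hS]

theorem LB_low_subset {N a : ℕ} {S : St} {y : Lab} (h : S ⊆ box N) (hy : y ∈ S) :
    insert (dn a y) (S.erase y) ⊆ box N := by
  intro z hz
  rw [mem_insert, mem_erase] at hz
  rw [mem_box]
  rcases hz with rfl | ⟨_, hz⟩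
  · have := mem_box.1 (h hy)
    simp only [dn]; omega
  · exact mem_box.1 (h hz)

theorem LB_comm (x y : Lab → R) {a b : ℕ} (ha : 1 ≤ a) (hb : 1 ≤ b) {S : St} {N M : ℕ}
    (hN : S ⊆ box N) (hM : N + b ≤ M) :
    Low x a (Rib y b (Finsupp.single S 1)) - Rib y b (Low x a (Finsupp.single S 1)) =
      ∑ l ∈ box M, ∑ k ∈ box M,
        ((if up a l = up b k then (x l * y k) • EE R k l (Finsupp.single S (1 : R)) else 0) -
          (if k = l then (x l * y k) • EE R (up a l) (up b k) (Finsupp.single S (1 : R)) else 0)) := by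
  have hNM : box N ⊆ box M := fun z hz => by rw [mem_box] at hz ⊢; omega
  have e1 : Low x a (Rib y b (Finsupp.single S 1)) =
      ∑ l ∈ box M, ∑ k ∈ box M, (x l * y k) •
        (EE R (up a l) l * EE R k (up b k)) (Finsupp.single S (1 : R)) := by
    have h1 : Low x a (Rib y b (Finsupp.single S 1)) =
        ∑ l ∈ box M, x l • EE R (up a l) l (Rib y b (Finsupp.single S 1)) := by
      rw [Rib_single y b S, map_sum]
      simp_rw [map_sum, smul_sum]
      rw [sum_comm]
      apply sum_congr rfl
      intro k hk
      have h2 : Finsupp.single (move b S k) ((-1) ^ cnt S k b * y k) =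
          ((-1) ^ cnt S k b * y k) • Finsupp.single (move b S k) (1 : R) := by
        rw [Finsupp.smul_single, smul_eq_mul, mul_one]
      rw [h2, map_smul, LB_Low_sum x ha (N := M), smul_sum]
      · apply sum_congr rfl
        intro l _
        rw [map_smul, smul_comm]
      · refine (move_subset hN (mem_filter.1 hk).1).trans ?_
        intro z hz
        rw [mem_box] at hz ⊢
        omega
    rw [h1, Rib_eq_sum y hb (L := box M) (hN.trans hNM)]
    apply sum_congr rfl
    intro l _
    rw [map_sum, smul_sum]
    apply sum_congr rfl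
    intro k _
    rw [map_smul, smul_smul, ← Module.End.mul_apply]
  have e2 : Rib y b (Low x a (Finsupp.single S 1)) =
      ∑ k ∈ box M, ∑ l ∈ box M, (y k * x l) •
        (EE R k (up b k) * EE R (up a l) l) (Finsupp.single S (1 : R)) := by
    have h1 : Rib y b (Low x a (Finsupp.single S 1)) =
        ∑ k ∈ box M, y k • EE R k (up b k) (Low x a (Finsupp.single S 1)) := by
      rw [LB_Low_single x a S, map_sum]
      simp_rw [map_sum, smul_sum]
      rw [sum_comm]
      apply sum_congr rfl
      intro z hz
      have h2 : Finsupp.single (insert (dn a z) (S.erase z)) ((-1) ^ cnt S (dn a z) a * x (dn a z)) =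
          ((-1) ^ cnt S (dn a z) a * x (dn a z)) •
            Finsupp.single (insert (dn a z) (S.erase z)) (1 : R) := by
        rw [Finsupp.smul_single, smul_eq_mul, mul_one]
      rw [h2, map_smul, Rib_eq_sum y hb (L := box M), smul_sum]
      · apply sum_congr rfl
        intro l _
        rw [map_smul, smul_comm]
      · exact (LB_low_subset hN (mem_filter.1 hz).1).trans hNM
    rw [h1, LB_Low_sum x ha (N := M) (hN.trans hNM)]
    apply sum_congr rfl
    intro l _
    rw [map_sum, smul_sum]
    apply sum_congr rfl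
    intro k _
    rw [map_smul, smul_smul, ← Module.End.mul_apply]
  rw [e1, e2]
  rw [sum_comm (s := box M) (t := box M) (f := fun k l => (y k * x l) •
        (EE R k (up b k) * EE R (up a l) l) (Finsupp.single S (1 : R)))]
  rw [← sum_sub_distrib]
  apply sum_congr rfl
  intro l _
  rw [← sum_sub_distrib]
  apply sum_congr rfl
  intro k _
  rw [mul_comm (y k) (x l), ← smul_sub, ← LinearMap.sub_apply, EE_comm]
  split_ifs <;> simp [smul_sub]

theorem LB_shift {E : Type} [AddCommMonoid E] (f : Lab → E) (a M : ℕ) (h0 : ∀ l : Lab, l.2 < a → f l = 0)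
    (h1 : ∀ l : Lab, M ≤ l.2 → f l = 0) : ∑ l ∈ box M, f (up a l) = ∑ l ∈ box M, f l := by
  rw [← sum_filter_add_sum_filter_not (box M) (fun l => a ≤ l.2) f,
    ← sum_filter_add_sum_filter_not (box M) (fun l => up a l ∈ box M) (fun l => f (up a l))]
  have e1 : ∑ l ∈ (box M).filter (fun l => ¬ a ≤ l.2), f l = 0 :=
    sum_eq_zero fun l hl => h0 l (not_le.1 (mem_filter.1 hl).2)
  have e2 : ∑ l ∈ (box M).filter (fun l => ¬ up a l ∈ box M), f (up a l) = 0 := by
    refine sum_eq_zero fun l hl => h1 _ ?_
    have := (mem_filter.1 hl).2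
    rw [mem_box] at this
    exact not_lt.1 this
  rw [e1, e2, add_zero, add_zero]
  refine sum_nbij' (fun l => up a l) (fun y => dn a y) ?_ ?_ ?_ ?_ ?_
  · intro l hl
    rw [mem_filter] at hl ⊢
    exact ⟨hl.2, by simp only [up]; omega⟩
  · intro y hy
    rw [mem_filter] at hy ⊢
    refine ⟨?_, ?_⟩
    · have := mem_box.1 hy.1
      rw [mem_box]
      simp only [dn]; omega
    · rw [LB_updn hy.2]; exact hy.1
  · intro l _
    exact LB_dnup
  · intro y hy
    exact LB_updn (mem_filter.1 hy).2
  · intro l _
    rfl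

theorem LB_up_up {a b : ℕ} {l : Lab} : up a (up b l) = up (a + b) l := by
  unfold up
  exact Prod.ext rfl (by simp only; omega)

theorem LB_EE_zero {S : St} {i j : Lab} (h : i ∉ S) : EE R i j (Finsupp.single S (1 : R)) = 0 := by
  unfold EE
  rw [Module.End.mul_apply, ann_single, if_neg h, map_zero]

theorem LB_EE_self {S : St} {i : Lab} :
    EE R i i (Finsupp.single S (1 : R)) = if i ∈ S then Finsupp.single S 1 else 0 := by
  unfold EE
  rw [Module.End.mul_apply, ann_single]
  split_ifs with h
  · rw [cre_single, if_neg (by simp), sg_erase h, insert_erase h]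
    simp [sg_mul_self]
  · rw [map_zero]

theorem LB_up_eq {a b : ℕ} {l k : Lab} (hab : a ≤ b) : up a l = up b k ↔ l = up (b - a) k := by
  unfold up
  rw [Prod.ext_iff, Prod.ext_iff]
  constructor
  · rintro ⟨h1, h2⟩
    refine ⟨h1, ?_⟩
    simp only at h2 ⊢
    omega
  · rintro ⟨h1, h2⟩
    refine ⟨h1, ?_⟩
    simp only at h2 ⊢
    omega

theorem LB : LB_stmt := by
  intro R _ x y n k a b u ha hb hu hkb
  have occ : ∀ S ∈ u.support, ∀ l : Lab, l.2 < b → l ∈ S := by
    intro S hS l hl
    by_contra h
    have := SD_good_hole (hu S hS) (b := l.1) (h := l.2) (fun h' => h (SD_mem_pos.1 h'))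
    omega
  refine ⟨fun hab => ?_, fun hab => ?_, fun hab => ?_⟩
  · refine LB_ext (Low x a ∘ₗ Rib y b - Rib y b ∘ₗ Low x a) (Rib _ (b - a)) u fun S hS => ?_
    obtain ⟨N, hN⟩ := exists_box S
    have hNM : box N ⊆ box (N + b) := fun z hz => by rw [mem_box] at hz ⊢; omega
    rw [LinearMap.sub_apply, LinearMap.comp_apply, LinearMap.comp_apply,
      LB_comm x y ha hb hN le_rfl, Rib_eq_sum _ (by omega) (hN.trans hNM)]
    simp_rw [sub_smul, sum_sub_distrib]
    congr 1
    · rw [sum_comm]
      refine sum_congr rfl fun l _ => ?_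
      simp_rw [LB_up_eq hab.le]
      rw [sum_ite_eq']
      split_ifs with h5
      · rfl
      · have : l ∉ S := fun h6 => h5 (mem_box.2 (by
          have := mem_box.1 (hN h6); simp only [up]; omega))
        rw [LB_EE_zero this, smul_zero]
    · simp_rw [sum_ite_eq']
      have e1 : ∀ l ∈ box (N + b), (if l ∈ box (N + b) then
          (x l * y l) • EE R (up a l) (up b l) (Finsupp.single S (1 : R)) else 0) =
          (fun l' : Lab => (x (dn a l') * y (dn a l')) •
            EE R l' (up (b - a) l') (Finsupp.single S (1 : R))) (up a l) := by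
        intro l hl
        rw [if_pos hl]
        simp only [LB_dnup, LB_up_up]
        rw [show b - a + a = b by omega]
      rw [sum_congr rfl e1]
      refine LB_shift (fun l' : Lab => (x (dn a l') * y (dn a l')) •
            EE R l' (up (b - a) l') (Finsupp.single S (1 : R))) a (N + b) ?_ ?_
      · intro l hl
        rw [cre_ann_single (by omega), if_neg, smul_zero]
        unfold addable
        rw [mem_filter]
        rintro ⟨_, h⟩
        exact h (occ S hS _ (by simp only [up]; omega))
      · intro l hl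
        rw [LB_EE_zero, smul_zero]
        intro h
        have := mem_box.1 (hN h)
        omega
  · subst hab
    refine LB_ext (Low x a ∘ₗ Rib y a - Rib y a ∘ₗ Low x a) (Dg _) u fun S hS => ?_
    obtain ⟨N, hN⟩ := exists_box S
    have hNM : box N ⊆ box (N + a) := fun z hz => by rw [mem_box] at hz ⊢; omega
    rw [LinearMap.sub_apply, LinearMap.comp_apply, LinearMap.comp_apply,
      LB_comm x y ha hb hN le_rfl]
    have e0 : Dg (fun l => x l * y l - if a ≤ l.2 then x (dn a l) * y (dn a l) else 0)
        (Finsupp.single S (1 : R)) = (∑ l ∈ S, x l * y l -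
          ∑ l ∈ S, if a ≤ l.2 then x (dn a l) * y (dn a l) else 0) • Finsupp.single S (1 : R) := by
      unfold Dg
      rw [Finsupp.linearCombination_single, one_smul, sum_sub_distrib, Finsupp.smul_single,
        smul_eq_mul, mul_one]
    rw [e0, sub_smul]
    simp_rw [sum_sub_distrib]
    congr 1
    · have e1 : ∀ l ∈ box (N + a), (∑ k ∈ box (N + a), if up a l = up a k then
          (x l * y k) • EE R k l (Finsupp.single S (1 : R)) else 0) =
          (if l ∈ S then x l * y l else 0) • Finsupp.single S (1 : R) := by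
        intro l hl
        simp_rw [LB_up_eq (le_refl a), Nat.sub_self]
        have e2 : ∀ k : Lab, up 0 k = k := fun k => rfl
        simp_rw [e2]
        rw [sum_ite_eq, if_pos hl, LB_EE_self]
        split_ifs <;> simp
      rw [sum_congr rfl e1, ← sum_smul, ← sum_filter]
      congr 1
      apply sum_congr _ fun _ _ => rfl
      ext l
      rw [mem_filter]
      exact ⟨fun h => h.2, fun h => ⟨hNM (hN h), h⟩⟩
    · simp_rw [sum_ite_eq']
      have e1 : ∀ l ∈ box (N + a), (if l ∈ box (N + a) then
          (x l * y l) • EE R (up a l) (up a l) (Finsupp.single S (1 : R)) else 0) =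
          (fun l' : Lab => (if l' ∈ S ∧ a ≤ l'.2 then x (dn a l') * y (dn a l') else 0) •
            Finsupp.single S (1 : R)) (up a l) := by
        intro l hl
        rw [if_pos hl, LB_EE_self]
        simp only [LB_dnup]
        have h1 : a ≤ (up a l).2 := by simp only [up]; omega
        by_cases h2 : up a l ∈ S
        · rw [if_pos h2, if_pos ⟨h2, h1⟩]
        · rw [if_neg h2, if_neg (fun h => h2 h.1), zero_smul, smul_zero]
      rw [sum_congr rfl e1]
      refine (LB_shift (fun l' : Lab => (if l' ∈ S ∧ a ≤ l'.2 then x (dn a l') * y (dn a l') else 0) •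
            Finsupp.single S (1 : R)) a (N + a) ?_ ?_).trans ?_
      · intro l hl
        rw [if_neg (by omega), zero_smul]
      · intro l hl
        rw [if_neg, zero_smul]
        rintro ⟨h, _⟩
        have := mem_box.1 (hN h)
        omega
      · rw [← sum_smul]
        congr 1
        have e2 : ∀ l : Lab, (if l ∈ S ∧ a ≤ l.2 then x (dn a l) * y (dn a l) else 0) =
            if l ∈ S then (if a ≤ l.2 then x (dn a l) * y (dn a l) else 0) else 0 := by
          intro l
          by_cases h1 : l ∈ S <;> by_cases h2 : a ≤ l.2 <;> simp [h1, h2]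
        simp_rw [e2]
        rw [← sum_filter]
        apply sum_congr _ fun _ _ => rfl
        ext l
        rw [mem_filter]
        exact ⟨fun h => h.2, fun h => ⟨hNM (hN h), h⟩⟩
  · refine LB_ext (Low x a ∘ₗ Rib y b - Rib y b ∘ₗ Low x a) (Low _ (a - b)) u fun S hS => ?_
    obtain ⟨N, hN⟩ := exists_box S
    have hNM : box N ⊆ box (N + b) := fun z hz => by rw [mem_box] at hz ⊢; omega
    rw [LinearMap.sub_apply, LinearMap.comp_apply, LinearMap.comp_apply,
      LB_comm x y ha hb hN le_rfl, LB_Low_sum _ (by omega) (hN.trans hNM)]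
    simp_rw [sub_smul, sum_sub_distrib]
    congr 1
    · refine sum_congr rfl fun l _ => ?_
      have e3 : ∀ k : Lab, (up a l = up b k) = (k = up (a - b) l) := by
        intro k
        apply propext
        rw [eq_comm (a := up a l), LB_up_eq hab.le]
      simp_rw [e3]
      rw [sum_ite_eq']
      split_ifs with h5
      · rfl
      · have : up (a - b) l ∉ S := fun h6 => h5 (hNM (hN h6))
        rw [LB_EE_zero this, smul_zero]
    · simp_rw [sum_ite_eq']
      have e1 : ∀ l ∈ box (N + b), (if l ∈ box (N + b) then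
          (x l * y l) • EE R (up a l) (up b l) (Finsupp.single S (1 : R)) else 0) =
          (fun l' : Lab => (x (dn b l') * y (dn b l')) •
            EE R (up (a - b) l') l' (Finsupp.single S (1 : R))) (up b l) := by
        intro l hl
        rw [if_pos hl]
        simp only [LB_dnup, LB_up_up]
        rw [show a - b + b = a by omega]
      rw [sum_congr rfl e1]
      refine LB_shift (fun l' : Lab => (x (dn b l') * y (dn b l')) •
            EE R (up (a - b) l') l' (Finsupp.single S (1 : R))) b (N + b) ?_ ?_
      · intro l hl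
        rw [LB_EE (by omega), if_neg, smul_zero]
        rintro ⟨_, h⟩
        exact h (occ S hS _ hl)
      · intro l hl
        rw [LB_EE_zero, smul_zero]
        intro h
        have := mem_box.1 (hN h)
        simp only [up] at this
        omega

end lb

end Pool.Agent.helper27.PC
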